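import Pool.Agent.N508.GH.Non
import Pool.Agent.N508.GH.GhostMain
import Pool.Agent.N508.GH.Cells2

/-!
# The equivariant generating hypothesis fails for the group of order two

Let `G` be the group of order two, `σ` its sign representation and `D` the mapping cone of a map of
degree `4` of the circle, with collapse map `q : D → S²`. The example is the map
`f = (h ∧ h ∧ 1) ∘ (1 ∧ q)` from `X = S^σ ∧ D` to `Y = S^σ ∧ S²`, where `h` is the odd map of degree
two of the circle, on the first factor regarded as an equivariant self-map of `S^σ` (it is the
multiplication by the orbit `[G]`), on the second factor the multiplication by `2`.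

* Without the group action `f` is `4` times `q` (suspended), which is null-homotopic.
* Let `y` be in `π_*^G(S^σ ∧ S²)`. The underlying class of `y` is invariant under the action of `G`
  on `π_*(S^σ ∧ S²)`, but the generator of `G` acts as `-1` there. So twice this class is zero, and
  `2 [G] y = tr (2 res y) = 0`. So `f` is zero on `π_*^G`.
* If `f` were stably null, `2 [G]` would be divisible by `4` in the Burnside ring. The proof below
  uses a combinatorial degree: a null-homotopy would give an equivariant self-map of the sphere of a
  representation of odd degree, with degree zero on the fixed points; but these two degrees are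
  congruent modulo two.
-/

namespace Pool.Agent.Results.MP_2c15fb_gt.OrderTwo

open Pool.Agent.N508.GH

/-- There are a compact Lie group `G` (of order two), finite based `G`-CW complexes `X` and `Y` and
a based `G`-map `f : X → Y` which is not stably null, but which induces zero on the homotopy groups
`π_n^H`, `n = m - k`, for all closed subgroups `H` and all integers `n`. -/
theorem result : ∃ (G : CompactLieGroup) (X Y : GSpace G) (f : GMap X Y),
    Nat.card G.carrier = 2 ∧ X.IsFiniteCW ∧ Y.IsFiniteCW ∧ ¬ f.IsStablyNull ∧
      ∀ (H : ClosedSubgroup G.carrier) (m k : ℕ), f.IsZeroOnHomotopy H m k := by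
  refine ⟨C2, XX, YY, ff, card_C2, isFiniteCW_XX, isFiniteCW_YY, ff_not_stablyNull, ?_⟩
  intro H m k
  by_cases hH : gm ∈ H.toSubgroup
  · exact ghost_fixed H hH m k
  · exact ghost_free H hH m k

end Pool.Agent.Results.MP_2c15fb_gt.OrderTwo
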